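import Pool.Agent.Lib.MP_5c0a0e_nt.Main

/-! A rank four counterexample to Nahm's conjecture in the direction
torsion for all solutions implies modularity. -/

namespace Pool.Agent.Results.MP_5c0a0e_nt.Counterexample

open NahmCE

theorem result : ∃ A : Matrix (Fin 4) (Fin 4) ℚ,
    A = !![2/3, -1/3, -2/3, -2/3; -1/3, 8/3, 4/3, 4/3; -2/3, 4/3, 5/3, 2/3; -2/3, 4/3, 2/3, 5/3] ∧
    A.PosDef ∧ (∃ u v : Fin 4 → ℂ, IsNahmSolution A u v) ∧ AllTorsion A ∧
    ∀ (B : Fin 4 → ℚ) (C : ℚ), ¬ IsModularFunction (nahmSum A B C) :=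
  ⟨exA, rfl, exA_posDef, exA_solution, exA_torsion, exA_not_modular⟩

end Pool.Agent.Results.MP_5c0a0e_nt.Counterexample
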