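import Pool.Agent.Lib.MP_5c0a0e_nt.Fam.Main

/-! An infinite family of rank four integer matrices for which all solutions of Nahm's equations
are torsion in the Bloch group and no Nahm sum is a modular function. -/

namespace Pool.Agent.Results.MP_5c0a0e_nt.IntegerFamily

open NahmCE

theorem result : ∀ m : ℕ, m % 7 = 2 ∨ m % 7 = 3 → ∀ A : Matrix (Fin 4) (Fin 4) ℚ,
    A = !![(m : ℚ), 1 - 2 * m, -m, -m; 1 - 2 * m, 4 * m, 2 * m, 2 * m; -m, 2 * m, 1 + m, m;
      -m, 2 * m, m, 1 + m] →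
    A.PosDef ∧ (∃ u v : Fin 4 → ℂ, IsNahmSolution A u v) ∧ AllTorsion A ∧
    ∀ (B : Fin 4 → ℚ) (C : ℚ), ¬ IsModularFunction (nahmSum A B C) := by
  rintro m hm A rfl
  exact ⟨NahmFam.famA_posDef (by omega), NahmFam.famA_solution m,
    NahmFam.famA_torsion (by omega), NahmFam.famA_not_modular hm⟩

end Pool.Agent.Results.MP_5c0a0e_nt.IntegerFamily
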